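import Pool.Agent.Helper90.TS.Stmts

set_option autoImplicit false

namespace Pool.Agent.Helper90.TS

theorem st_ACLS (h1 : ST_ACLB) (h2 : ST_CALC) : ST_ACLS := by
  intro V G _ _ X A B C hA hB hC
  constructor
  · intro E hE
    obtain ⟨_, _, hmono, _, _, hrk, _⟩ := h1 V G X A hA
    obtain ⟨_, _, _, _, _, hrk', _⟩ := h1 V G X (A ∪ C) (hA.union hC)
    have hE' : E ⊆ acl G (A ∪ C) := hE.trans (hmono (A ∪ C) Set.subset_union_left)
    have key : ∀ (n : ℕ) (b : Fin n → V), (X.rk (A ∪ E ∪ C) b = X.rk (A ∪ E) b ↔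
        X.rk (A ∪ C) b = X.rk A b) := by
      intro n b
      rw [hrk E (Fin n) b hE, Set.union_right_comm, hrk' E (Fin n) b hE']
    constructor
    · intro h n b hb
      exact (key n b).1 (h n b hb)
    · intro h n b hb
      exact (key n b).2 (h n b hb)
  · intro h
    obtain ⟨hs, _⟩ := h2 V G X A B C ∅ hA hB hC Set.countable_empty
    obtain ⟨hsub, hcnt, _, _, _, hrk, _⟩ := h1 V G X (A ∪ B) (hA.union hB)
    obtain ⟨hs', _⟩ := h2 V G X A C (acl G (A ∪ B)) ∅ hA hC hcnt Set.countable_empty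
    refine hs' ?_
    intro n c hc
    have h3 := hrk (acl G (A ∪ B)) (Fin n) c subset_rfl
    have h4 : A ∪ B ∪ acl G (A ∪ B) = A ∪ acl G (A ∪ B) := by
      ext x
      constructor
      · rintro ((h5 | h5) | h5)
        · exact Or.inl h5
        · exact Or.inr (hsub (Or.inr h5))
        · exact Or.inr h5
      · rintro (h5 | h5)
        · exact Or.inl (Or.inl h5)
        · exact Or.inr h5
    rw [h4] at h3
    rw [h3]
    exact hs h n c hc

end Pool.Agent.Helper90.TS
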