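import Pool.Agent.Helper90.TS.Stmts

set_option autoImplicit false

namespace Pool.Agent.Helper90.TS

theorem cov_tuples {V : Type} {A : Set V} (hA : A.Countable) (m : ℕ) :
    {a : Fin m → V | Set.range a ⊆ A}.Countable := by
  have h := Set.countable_univ_pi (s := fun _ : Fin m => A) (fun _ => hA)
  refine h.mono ?_
  intro a ha i _
  exact ha ⟨i, rfl⟩

theorem st_COV (h : ST_FSUP) : ST_COV := by
  intro V G _ _ X A hA ι _
  have hS : (⋃ m : ℕ, ⋃ a ∈ {a : Fin m → V | Set.range a ⊆ A},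
      (fun E : Set (Fin m ⊕ ι → V) => {x : ι → V | Sum.elim a x ∈ E}) ''
        {E | E ∈ X.Df (Fin m ⊕ ι) ∧ Inv (⊤ : Subgroup G) E}).Countable := by
    refine Set.countable_iUnion fun m => ?_
    refine (cov_tuples hA m).biUnion fun a _ => ?_
    exact (X.cnt (Fin m ⊕ ι)).image _
  refine hS.mono ?_
  intro D hD
  obtain ⟨m, a, E, ha, hE, rfl⟩ := h V G X A hA ι D hD
  refine Set.mem_iUnion.2 ⟨m, ?_⟩
  refine Set.mem_iUnion₂.2 ⟨a, ha, ?_⟩
  exact ⟨E, (ov_empty_iff X).1 hE, rfl⟩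

end Pool.Agent.Helper90.TS
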