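import Pool.Agent.Helper90.TS.Stmts

set_option autoImplicit false

namespace Pool.Agent.Helper90.TS

theorem st_ISO (h1 : ST_TREE) (h2 : ST_TYPE) : ST_ISO := by
  intro V G _ _ X B hB ι _ D hD hne
  by_contra hcon
  refine h1 V G X ι (fun D' => X.Ov B D' ∧ D'.Nonempty ∧
    ¬ ∃ E, E ⊆ D' ∧ X.Ov B E ∧ E.Nonempty ∧ ∀ x ∈ E, ∀ y ∈ E, Eqv G B x y) ?_ D ⟨hD, hne, hcon⟩
  rintro D' ⟨ho, hn, hno⟩
  refine ⟨ho.1, hn, ?_⟩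
  have h3 : ∃ x ∈ D', ∃ y ∈ D', ¬ Eqv G B x y := by
    by_contra h4
    push Not at h4
    exact hno ⟨D', subset_rfl, ho, hn, h4⟩
  obtain ⟨x, hx, y, hy, hxy⟩ := h3
  have h5 : ∃ H : Set (ι → V), X.Ov B H ∧ x ∈ H ∧ y ∉ H := by
    by_contra h6
    push Not at h6
    exact hxy (h2 V G X B hB ι x y h6)
  obtain ⟨H, hH, hxH, hyH⟩ := h5
  refine ⟨D' ∩ H, D' \ H, Set.inter_subset_left, Set.sdiff_subset, ?_, ⟨ov_inter ho hH,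
    ⟨x, hx, hxH⟩, ?_⟩, ⟨ov_diff ho hH, ⟨y, hy, hyH⟩, ?_⟩⟩
  · rw [Set.disjoint_left]
    rintro z ⟨_, hz⟩ ⟨_, hz'⟩
    exact hz' hz
  · rintro ⟨E, hE, h7⟩
    exact hno ⟨E, hE.trans Set.inter_subset_left, h7⟩
  · rintro ⟨E, hE, h7⟩
    exact hno ⟨E, hE.trans Set.sdiff_subset, h7⟩

end Pool.Agent.Helper90.TS
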