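import Pool.Agent.Helper90.TS.Stmts

set_option autoImplicit false

namespace Pool.Agent.Helper90.TS

theorem st_REAL (h : ST_COV) : ST_REAL := by
  intro V G _ _ X A hA ι _ F hF hne hint hnon
  have hc : F.Countable := (h V G X A hA ι).mono fun D hD => hF D hD
  obtain ⟨f, hf⟩ := hc.exists_eq_range hne
  have hmem : ∀ i, f i ∈ F := fun i => by rw [hf]; exact ⟨i, rfl⟩
  have key : ∀ k, ∃ D ∈ F, ∀ i < k, D ⊆ f i := by
    intro k
    induction k with
    | zero => 
      obtain ⟨D, hD⟩ := hne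
      exact ⟨D, hD, fun i hi => absurd hi (Nat.not_lt_zero i)⟩
    | succ k ih =>
      obtain ⟨D, hD, h1⟩ := ih
      refine ⟨D ∩ f k, hint D hD _ (hmem k), fun i hi => ?_⟩
      rcases Nat.lt_succ_iff_lt_or_eq.1 hi with h2 | rfl
      · exact Set.inter_subset_left.trans (h1 i h2)
      · exact Set.inter_subset_right
  obtain ⟨x, hx⟩ := X.sat ι f (fun i => (hF _ (hmem i)).1) (fun k => by
    obtain ⟨D, hD, h1⟩ := key k
    obtain ⟨x, hx⟩ := hnon D hD
    exact ⟨x, fun i hi => h1 i hi hx⟩)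
  refine ⟨x, fun D hD => ?_⟩
  rw [hf] at hD
  obtain ⟨i, rfl⟩ := hD
  exact hx i

end Pool.Agent.Helper90.TS
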